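import Pool.Agent.Run7.h6.IA.Final

open Run7.h6.IAQuad

/-- The graded Lie ring `E₀(IA_3)` of the lower central series of the group `IA_3` is not a free
Lie algebra modulo quadratic relations. -/
theorem Pool.Agent.Results.MP_df4ecf_al.IA3NotQuadratic.result :
    ¬ IsFreeLieModQuadratic (IA 3) :=
  not_isFreeLieModQuadratic_IA3
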